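import Pool.Agent.H95.CMC.Targets

/-!
# (ANG): the angular factor
-/

set_option autoImplicit false

open MeasureTheory Set Filter NumberField NumberField.InfinitePlace
open scoped Real nonZeroDivisors
open Pool.Agent.H65.CM4 Pool.Agent.H65.CMC Pool.Agent.H95.CMC
open Pool.Agent.H95.CM (lin lin_add lin_smul T_NF2)

namespace Pool.Agent.H63.CMC

theorem normSq_emb (k K : Type) [Field k] [NumberField k] [IsTotallyReal k] [Field K]
    [NumberField K] [IsTotallyComplex K] [Algebra k K] [Algebra.IsQuadraticExtension k K]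
    (v : Pl k) (φ : K →+* ℂ) (hφ : ∀ x : k, φ (algebraMap k K x) = ((rv v x : ℝ) : ℂ)) (x : K) :
    rv v (Algebra.norm k x) = Complex.normSq (φ x) := by
  classical
  have hcx : ¬ ComplexEmbedding.IsReal φ := by
    have h1 : (InfinitePlace.mk φ).IsComplex := IsTotallyComplex.isComplex _
    exact isComplex_mk_iff.mp h1
  have hcomp : φ.comp (algebraMap k K) = (ComplexEmbedding.conjugate φ).comp (algebraMap k K) := by
    ext y
    rw [RingHom.comp_apply, RingHom.comp_apply, ComplexEmbedding.conjugate_coe_eq, hφ,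
      Complex.conj_ofReal]
  obtain ⟨σ, hσ⟩ := NumberField.ComplexEmbedding.exists_comp_symm_eq_of_comp_eq (k := k) (K := K) φ _ hcomp
  have hσ1 : σ.symm ≠ AlgEquiv.refl := by
    intro h
    apply hcx
    rw [ComplexEmbedding.isReal_iff, ← hσ, h]
    rfl
  have hcard : Fintype.card Gal(K/k) = 2 := by
    rw [← Nat.card_eq_fintype_card, IsGalois.card_aut_eq_finrank k K,
      Algebra.IsQuadraticExtension.finrank_eq_two k K]
  have huniv : (Finset.univ : Finset Gal(K/k)) = {AlgEquiv.refl, σ.symm} := by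
    symm
    apply Finset.eq_of_subset_of_card_le (Finset.subset_univ _)
    rw [Finset.card_univ, hcard, Finset.card_pair hσ1.symm]
  have hnorm := Algebra.norm_eq_prod_automorphisms (K := k) (L := K) x
  rw [huniv, Finset.prod_pair hσ1.symm] at hnorm
  have h2 : φ (σ.symm x) = (starRingEnd ℂ) (φ x) := RingHom.congr_fun hσ x
  have h3 : φ (algebraMap k K (Algebra.norm k x)) = ((Complex.normSq (φ x) : ℝ) : ℂ) := by
    rw [hnorm, map_mul, h2]
    have : φ ((AlgEquiv.refl : Gal(K/k)) x) = φ x := rfl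
    rw [this, Complex.mul_conj]
  rw [hφ] at h3
  exact_mod_cast h3

theorem pf_ANG (hNF2 : T_NF2) : T_ANG := by
  intro k K _ _ _ _ _ _ _ _ Φ b Λ α β μ M Q hE hO hpos m u hu
  have hα : α ≠ 0 := by
    intro h
    have h1 : lin α β ((1, 0) : V2 k) = 0 := by
      simp [lin, h]
    have h2 := hO.inj _ h1
    have h3 := congrArg Prod.fst h2
    simp at h3
  unfold ty an
  rw [← Finset.prod_mul_distrib]
  apply Finset.prod_congr rfl
  intro v _
  have hφ := hE v
  set φ : K →+* ℂ := Φ v with hφdef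
  set a : ℂ := φ α with ha
  have ha0 : a ≠ 0 := (map_ne_zero φ).2 hα
  set t : ℂ := φ (β / α) with ht
  have hlin : ∀ w : V2 k, φ (lin α β w) =
      a * (((rv v (w.1 : k) : ℝ) : ℂ) + ((rv v (w.2 : k) : ℝ) : ℂ) * t) := by
    intro w
    unfold lin
    rw [map_add, map_mul, map_mul, hφ, hφ, ht, map_div₀, ← ha]
    field_simp
  have hnrm : ∀ w : V2 k, Complex.normSq a *
      Complex.normSq (((rv v (w.1 : k) : ℝ) : ℂ) + ((rv v (w.2 : k) : ℝ) : ℂ) * t) =
      rv v μ * rv v ((val Q w : 𝓞 k) : k) := by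
    intro w
    rw [← Complex.normSq_mul, ← hlin, ← normSq_emb k K v φ hφ, hO.nrm, map_mul]
  have h10 := hnrm (1, 0)
  have h01 := hnrm (0, 1)
  have h11 := hnrm (1, 1)
  have v10 : val Q ((1, 0) : V2 k) = Q.1 := by simp [val]
  have v01 : val Q ((0, 1) : V2 k) = Q.2.2 := by simp [val]
  have v11 : val Q ((1, 1) : V2 k) = Q.1 + Q.2.1 + Q.2.2 := by simp [val]
  rw [v10] at h10
  rw [v01] at h01
  rw [v11] at h11
  set A : ℝ := Complex.normSq a with hA
  set q1 : ℝ := rv v (Q.1 : k) with hq1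
  set q2 : ℝ := rv v (Q.2.1 : k) with hq2
  set q3 : ℝ := rv v (Q.2.2 : k) with hq3
  set M0 : ℝ := rv v μ with hM0
  have e10 : A = M0 * q1 := by
    simpa [Complex.normSq_apply] using h10
  have e01 : A * (t.re * t.re + t.im * t.im) = M0 * q3 := by
    simpa [Complex.normSq_apply] using h01
  have e11 : A * ((1 + t.re) * (1 + t.re) + t.im * t.im) = M0 * (q1 + q2 + q3) := by
    simpa [Complex.normSq_apply, map_add] using h11
  have hM : 0 < M0 := hO.pos v
  obtain ⟨hq1p, hdp⟩ := hpos v
  have hd : rv v (dsc Q : k) = 4 * (q1 * q3) - q2 ^ 2 := by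
    have h4 : rv v (algebraMap (𝓞 k) k 4) = 4 := by
      rw [map_ofNat, map_ofNat]
    simp [dsc, hq1, hq2, hq3, h4]
  have hre : t.re = zx Q v := by
    unfold zx
    rw [← hq1, ← hq2, eq_div_iff (by positivity)]
    have h : M0 * (t.re * (2 * q1)) = M0 * q2 := by
      rw [e10] at e01 e11
      linear_combination e11 - e01
    exact mul_left_cancel₀ hM.ne' h
  have him : t.im ^ 2 = zy Q v ^ 2 := by
    unfold zy
    rw [div_pow, Real.sq_sqrt hdp.le, hd, ← hq1, eq_div_iff (by positivity)]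
    have h1 : t.re * (2 * q1) = q2 := by
      rw [hre]; unfold zx; rw [← hq1, ← hq2]
      exact div_mul_cancel₀ _ (by positivity)
    have h2 : q1 * (t.re * t.re + t.im * t.im) = q3 := by
      rw [e10] at e01
      apply mul_left_cancel₀ hM.ne'
      linear_combination e01
    linear_combination (4 * q1) * h2 - (t.re * (2 * q1) + q2) * h1
  have hzy : 0 < zy Q v := by
    unfold zy
    rw [← hq1]
    have := Real.sqrt_pos.2 hdp
    positivity
  rw [hlin u, map_mul, mul_div_mul_comm, mul_zpow]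
  congr 1
  have hcj : (starRingEnd ℂ) (((rv v (u.1 : k) : ℝ) : ℂ) + ((rv v (u.2 : k) : ℝ) : ℂ) * t) =
      ((rv v (u.1 : k) : ℝ) : ℂ) + ((rv v (u.2 : k) : ℝ) : ℂ) * (starRingEnd ℂ) t := by
    rw [map_add, map_mul, Complex.conj_ofReal, Complex.conj_ofReal]
  rw [hcj]
  unfold sm ac
  rw [← hφdef, ← ht]
  by_cases hs : 0 < t.im
  · rw [if_pos hs]
    have him' : t.im = zy Q v := by
      nlinarith
    have e1 : t = (zx Q v : ℂ) + Complex.I * (zy Q v : ℂ) := by
      rw [← hre, ← him']
      apply Complex.ext <;> simp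
    have e2 : (starRingEnd ℂ) t = (zx Q v : ℂ) - Complex.I * (zy Q v : ℂ) := by
      rw [← hre, ← him']
      apply Complex.ext <;> simp
    rw [← e1, ← e2]
  · rw [if_neg hs]
    have him' : t.im = -zy Q v := by
      push Not at hs
      nlinarith
    have e1 : t = (zx Q v : ℂ) - Complex.I * (zy Q v : ℂ) := by
      rw [← hre, ← neg_neg (zy Q v), ← him']
      apply Complex.ext <;> simp
    have e2 : (starRingEnd ℂ) t = (zx Q v : ℂ) + Complex.I * (zy Q v : ℂ) := by
      rw [← hre, ← neg_neg (zy Q v), ← him']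
      apply Complex.ext <;> simp
    rw [← e1, ← e2, zpow_neg, ← inv_zpow, inv_div]

end Pool.Agent.H63.CMC
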